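import Mathlib
import Pool.Agent.N585.FP.PolyP

/-!
# Path-like trees: definitions and statements (project PT)
-/

set_option autoImplicit false

namespace Pool.Agent.N585.PT

open Pool.Agent.H622R2

/-! ## The definition -/

/-- Adjacent points of the grid. -/
def GAdj (p q : ℤ × ℤ) : Prop := (p.1 = q.1 ∧ |p.2 - q.2| = 1) ∨ (p.2 = q.2 ∧ |p.1 - q.1| = 1)

/-- The points `p 0, ..., p (n - 1)` form a crossing-free embedding of the path with `n` vertices
in the grid. -/
def Emb (n : ℕ) (p : ℕ → ℤ × ℤ) : Prop :=
  (∀ i, i + 1 < n → GAdj (p i) (p (i + 1))) ∧ ∀ i j, i < n → j < n → p i = p j → i = j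

/-- The part of the embedded path between `p i` and `p j` is straight. -/
def Straight (p : ℕ → ℤ × ℤ) (i j : ℕ) : Prop :=
  ∀ k l, i ≤ k → k < j → i ≤ l → l < j → p (k + 1) - p k = p (l + 1) - p l

/-- `p a, p (a + 1)` is a maximal straight segment which is not the first and not the last one,
`p (a - t)` lies in the preceding maximal straight segment, `p (a + 1 + t)` lies in the following
one, and these two points are adjacent in the grid. So the edge between `p a` and `p (a + 1)` can
be replaced by the edge between `p (a - t)` and `p (a + 1 + t)`. -/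
def Elem (n : ℕ) (p : ℕ → ℤ × ℤ) (a t : ℕ) : Prop :=
  1 ≤ a ∧ a + 2 < n ∧ ¬ Straight p (a - 1) (a + 1) ∧ ¬ Straight p a (a + 2) ∧
    t ≤ a ∧ Straight p (a - t) a ∧ a + 1 + t < n ∧ Straight p (a + 1) (a + 1 + t) ∧
    GAdj (p (a - t)) (p (a + 1 + t))

/-- The graph obtained from the path `0, ..., n - 1` by replacing for `a ∈ A` the edge between `a`
and `a + 1` by the edge between `a - t a` and `a + 1 + t a`. -/
def trG (n : ℕ) (A : Finset ℕ) (t : ℕ → ℕ) : SimpleGraph (Fin n) :=
  SimpleGraph.fromRel fun i j => (j.1 = i.1 + 1 ∧ i.1 ∉ A) ∨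
    ∃ a ∈ A, i.1 + t a = a ∧ j.1 = a + 1 + t a

/-- Path-like trees. -/
def PathLike {V : Type} (G : SimpleGraph V) : Prop :=
  ∃ (n : ℕ) (p : ℕ → ℤ × ℤ) (A : Finset ℕ) (t : ℕ → ℕ), 0 < n ∧ Emb n p ∧
    (∀ a ∈ A, Elem n p a (t a)) ∧ Nonempty (G ≃g trG n A t)

/-! ## The structure of path-like trees -/

/-- The replaced edges do not interfere. -/
def Ok (n : ℕ) (A : Finset ℕ) (t : ℕ → ℕ) : Prop :=
  ∀ a ∈ A, 1 ≤ t a ∧ t a ≤ a ∧ a + 1 + t a < n ∧
    ∀ b ∈ A, b < a → b + 1 + t b ≤ a ∧ b + 1 + t a ≤ a

section

variable {V : Type} (G : SimpleGraph V)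

/-- The vertex of `Q` with `t` vertices after it is adjacent to the vertex of `Q'` with `t`
vertices before it. -/
def Link (Q Q' : List V) : Prop :=
  ∃ (t : ℕ) (x y : V), Q.reverse[t]? = some x ∧ Q'[t]? = some y ∧ G.Adj x y

/-- Disjoint paths, consecutive ones linked. -/
def ChDec (L : List (List V)) : Prop :=
  (∀ Q ∈ L, Q ≠ [] ∧ Q.IsChain G.Adj) ∧ L.IsChain (Link G) ∧ L.flatten.Nodup

/-- The vertices are partitioned into a sequence of linked paths. -/
def Dec : Prop := ∃ L : List (List V), ChDec G L ∧ ∀ x, x ∈ L.flatten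

/-! ## Trees -/

/-- `y` is reachable from `x` avoiding `w`. -/
def RA (w x y : V) : Prop := x ≠ w ∧ Relation.ReflTransGen (fun a b => G.Adj a b ∧ b ≠ w) x y

/-- `w` is on the path between `x` and `y` -/
def onP (x y w : V) : Prop := w = x ∨ w = y ∨ ¬ RA G w x y

variable [Fintype V]

open Classical in
/-- number of vertices of the path between `x` and `y` -/
noncomputable def dd (x y : V) : ℕ := (Finset.univ.filter fun w => onP G x y w).card

open Classical in
/-- number of vertices of the branch at `v` seen from `u` -/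
noncomputable def br (u v : V) : ℕ := (Finset.univ.filter fun w => RA G u v w).card

/-- The branch at `v` seen from `u` is a sequence of linked paths, and `v` is vertex number `k` of
the first path. -/
inductive CC : V → V → ℕ → Prop
  | last {u v x y : V} : onP G x y v → RA G u v x → RA G u v y → dd G x y = br G u v →
      CC u v (dd G x v)
  | cons {u v x y u' v' : V} : onP G x y v → RA G u v x → RA G u v y → onP G x y u' →
      G.Adj u' v' → ¬ onP G x y v' → v' ≠ u → dd G x y + br G u' v' = br G u v →
      CC u' v' (dd G u' y) → CC u v (dd G x v)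

/-- The whole graph is a sequence of linked paths. -/
def Top : Prop :=
  ∃ x y, dd G x y = Fintype.card V ∨ ∃ u' v', onP G x y u' ∧ G.Adj u' v' ∧ ¬ onP G x y v' ∧
    dd G x y + br G u' v' = Fintype.card V ∧ CC G u' v' (dd G u' y)

end

/-! ## The algorithm -/

open Pool.Agent.NPC.N585FP

/-- one round of the computation of the vertices reachable without `w` -/
def rstep (M : List (List Bool)) (w : ℕ) (S : List ℕ) : List ℕ :=
  (List.range M.length).filter fun b => decide (b ∈ S) || (!(decide (b = w)) &&
    S.any fun a => adjB M a b)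

/-- the vertices reachable from `x` without `w` -/
def rL (M : List (List Bool)) (w x : ℕ) : List ℕ :=
  (List.range M.length).foldl (fun S _ => rstep M w S) [x]

/-- reachability without `w` -/
def raB (M : List (List Bool)) (w x y : ℕ) : Bool := !(decide (x = w)) && decide (y ∈ rL M w x)

/-- the path between `x` and `y` -/
def onB (M : List (List Bool)) (x y w : ℕ) : Bool :=
  decide (w = x) || (decide (w = y) || !(raB M w x y))

/-- number of vertices of the path between `x` and `y` -/
def ddB (M : List (List Bool)) (x y : ℕ) : ℕ :=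
  ((List.range M.length).filter fun w => onB M x y w).length

/-- number of vertices of the branch at `v` seen from `u` -/
def brB (M : List (List Bool)) (u v : ℕ) : ℕ :=
  ((List.range M.length).filter fun w => raB M u v w).length

/-- Is the graph a tree? -/
def treeB (M : List (List Bool)) : Bool :=
  (!(decide (M.length = 0)) && (List.range M.length).all fun y => raB M M.length 0 y) &&
    (List.range M.length).all fun u => (List.range M.length).all fun z =>
      (List.range M.length).all fun v => !(adjB M u z && (adjB M u v && !(decide (z = v)))) ||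
        !(raB M u z v)

/-- all triples -/
def trip (M : List (List Bool)) : List (ℕ × ℕ × ℕ) :=
  (List.range M.length).flatMap fun u => (List.range M.length).flatMap fun v =>
    (List.range (M.length + 1)).map fun k => (u, v, k)

/-- the continuation after the path from `x` to `y`; the number of vertices is `m` and `u` is
excluded -/
def nextB (M : List (List Bool)) (T : List (ℕ × ℕ × ℕ)) (m u x y : ℕ) : Bool :=
  decide (ddB M x y = m) || (List.range M.length).any fun u' => (List.range M.length).any fun v' =>
    (onB M x y u' && adjB M u' v') && ((!(onB M x y v') && !(decide (v' = u))) &&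
      (decide (ddB M x y + brB M u' v' = m) && decide ((u', v', ddB M u' y) ∈ T)))

/-- one round of the computation of the triples in `CC` -/
def cstep (M : List (List Bool)) (T : List (ℕ × ℕ × ℕ)) : List (ℕ × ℕ × ℕ) :=
  (trip M).filter fun s => (List.range M.length).any fun x => (List.range M.length).any fun y =>
    ((onB M x y s.2.1 && decide (ddB M x s.2.1 = s.2.2)) &&
      (raB M s.1 s.2.1 x && raB M s.1 s.2.1 y)) && nextB M T (brB M s.1 s.2.1) s.1 x y

/-- the table of the triples in `CC` -/
def tab (M : List (List Bool)) : List (ℕ × ℕ × ℕ) :=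
  (List.range M.length).foldl (fun T _ => cstep M T) []

/-- the algorithm -/
def algB (M : List (List Bool)) : Bool :=
  treeB M && (List.range M.length).any fun x => (List.range M.length).any fun y =>
    nextB M (tab M) M.length M.length x y

/-! ## Statements -/

/-- (PT/1) Elementary transformations of an embedding do not interfere. -/
def StmOk : Prop :=
  ∀ (n : ℕ) (p : ℕ → ℤ × ℤ) (A : Finset ℕ) (t : ℕ → ℕ), Emb n p → (∀ a ∈ A, Elem n p a (t a)) →
    ∃ A' : Finset ℕ, Ok n A' t ∧ trG n A t = trG n A' t

/-- (PT/2) The snake. -/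
def StmSnake : Prop :=
  ∀ (n : ℕ) (A : Finset ℕ) (t : ℕ → ℕ), Ok n A t →
    ∃ p : ℕ → ℤ × ℤ, Emb n p ∧ ∀ a ∈ A, Elem n p a (t a)

/-- (PT/3) The transformed paths are trees with decompositions. -/
def StmTree : Prop :=
  ∀ (n : ℕ) (A : Finset ℕ) (t : ℕ → ℕ), 0 < n → Ok n A t → (trG n A t).IsTree ∧ Dec (trG n A t)

/-- (PT/4) Trees with decompositions are transformed paths. -/
def StmIso : Prop :=
  ∀ (V : Type) [Fintype V] (G : SimpleGraph V), G.IsTree → Dec G →
    ∃ (n : ℕ) (A : Finset ℕ) (t : ℕ → ℕ), 0 < n ∧ Ok n A t ∧ Nonempty (G ≃g trG n A t)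

/-- (PT/5) Paths in trees. -/
def StmPath : Prop :=
  ∀ (V : Type) [Fintype V] (G : SimpleGraph V), G.IsTree →
    (∀ x y : V, ∃ Q : List V, Q.IsChain G.Adj ∧ Q.Nodup ∧ Q.head? = some x ∧
      Q.getLast? = some y) ∧
    ∀ (Q : List V) (x y : V), Q.IsChain G.Adj → Q.Nodup → Q.head? = some x →
      Q.getLast? = some y → (∀ w, w ∈ Q ↔ onP G x y w) ∧ dd G x y = Q.length

/-- (PT/6) Branches. -/
def StmBr : Prop :=
  ∀ (V : Type) [Fintype V] (G : SimpleGraph V), G.IsTree → ∀ (u v : V) (k : ℕ), G.Adj u v →
    (CC G u v k ↔ ∃ (Q : List V) (L : List (List V)), ChDec G (Q :: L) ∧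
      (∀ w, w ∈ (Q :: L).flatten ↔ RA G u v w) ∧ 1 ≤ k ∧ Q[k - 1]? = some v)

/-- (PT/7) The whole tree. -/
def StmTop : Prop :=
  ∀ (V : Type) [Fintype V] (G : SimpleGraph V), G.IsTree → (Dec G ↔ Top G)

/-- (PT/8) Correctness of the basic computations. -/
def StmRa : Prop :=
  ∀ (M : List (List Bool)),
    (∀ w x y : Fin M.length, raB M w x y = true ↔ RA (matGraph M) w x y) ∧
    (treeB M = true ↔ (matGraph M).IsTree)

/-- (PT/9) Correctness of the table. -/
def StmAlg : Prop :=
  ∀ (M : List (List Bool)), treeB M = true → (algB M = true ↔ Top (matGraph M))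

/-- (PT/10) The running time. -/
def StmPoly : Prop := Pool.Agent.NPC.Poly algB

end Pool.Agent.N585.PT
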