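import Pool.Agent.N585.PT.Defs

/-!
# Path-like trees: assembly
-/

set_option autoImplicit false

namespace Pool.Agent.N585.PT

open Pool.Agent.NPC Pool.Agent.H622R2 Pool.Agent.NPC.N585FP

theorem isTree_of_iso {V W : Type} {G : SimpleGraph V} {H : SimpleGraph W} (f : G ≃g H)
    (h : H.IsTree) : G.IsTree := f.isTree_iff.2 h

theorem link_map {V W : Type} {G : SimpleGraph V} {H : SimpleGraph W} (f : G ≃g H)
    {Q Q' : List V} (h : Link G Q Q') : Link H (Q.map f) (Q'.map f) := by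
  obtain ⟨t, x, y, h1, h2, h3⟩ := h
  refine ⟨t, f x, f y, ?_, ?_, f.map_adj_iff.2 h3⟩
  · rw [← List.map_reverse, List.getElem?_map, h1]; rfl
  · rw [List.getElem?_map, h2]; rfl

theorem dec_of_iso {V W : Type} {G : SimpleGraph V} {H : SimpleGraph W} (f : G ≃g H)
    (h : Dec G) : Dec H := by
  obtain ⟨L, ⟨h1, h2, h3⟩, h4⟩ := h
  refine ⟨L.map (List.map f), ⟨?_, ?_, ?_⟩, ?_⟩
  · intro Q hQ
    obtain ⟨Q', hQ', rfl⟩ := List.mem_map.1 hQ
    refine ⟨by simpa using (h1 Q' hQ').1, ?_⟩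
    exact List.isChain_map_of_isChain f (fun a b hab => f.map_adj_iff.2 hab) (h1 Q' hQ').2
  · exact List.isChain_map_of_isChain (List.map f) (fun a b hab => link_map f hab) h2
  · rw [← List.map_flatten]
    exact h3.map f.injective
  · intro x
    rw [← List.map_flatten, List.mem_map]
    exact ⟨f.symm x, h4 _, f.apply_symm_apply x⟩

/-- The structure theorem. -/
theorem pathLike_iff (h1 : StmOk) (h2 : StmSnake) (h3 : StmTree) (h4 : StmIso) {V : Type}
    [Fintype V] (G : SimpleGraph V) : PathLike G ↔ G.IsTree ∧ Dec G := by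
  constructor
  · rintro ⟨n, p, A, t, hn, hp, hA, ⟨f⟩⟩
    obtain ⟨A', hA', e⟩ := h1 n p A t hp hA
    rw [e] at f
    obtain ⟨ht, hd⟩ := h3 n A' t hn hA'
    exact ⟨isTree_of_iso f ht, dec_of_iso f.symm hd⟩
  · rintro ⟨ht, hd⟩
    obtain ⟨n, A, t, hn, hA, f⟩ := h4 V G ht hd
    obtain ⟨p, hp, hp'⟩ := h2 n A t hA
    exact ⟨n, p, A, t, hn, hp, hp', f⟩

/-- Correctness of the algorithm. -/
theorem alg_iff (h1 : StmOk) (h2 : StmSnake) (h3 : StmTree) (h4 : StmIso) (h7 : StmTop)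
    (h8 : StmRa) (h9 : StmAlg) (M : List (List Bool)) :
    PathLike (matGraph M) ↔ algB M = true := by
  rw [pathLike_iff h1 h2 h3 h4]
  constructor
  · rintro ⟨ht, hd⟩
    have h := ((h8 M).2).2 ht
    exact (h9 M h).2 ((h7 _ _ ht).1 hd)
  · intro h
    have ht : treeB M = true := by
      unfold algB at h
      rw [Bool.and_eq_true] at h
      exact h.1
    have ht' := ((h8 M).2).1 ht
    exact ⟨ht', (h7 _ _ ht').2 ((h9 M ht).1 h)⟩

end Pool.Agent.N585.PT
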